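import Pool.Agent.Y466.KS.Stm

/-!
Project KS (helper466), job MIL: an even unimodular form which is diagonal on a sublattice of finite
index has signature divisible by eight (finite Gauss sums).
-/

set_option autoImplicit false

namespace Pool.Agent.Y143.KS

open Matrix Pool.Agent.Y466.KS

/-! ### One-dimensional sums -/

theorem chi_sum {R ι : Type} [AddCommMonoid R] (ψ : AddChar R ℂ) (s : Finset ι) (f : ι → R) :
    ψ (∑ i ∈ s, f i) = ∏ i ∈ s, ψ (f i) := by
  classical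
  induction s using Finset.induction_on with
  | empty => simp
  | insert i s hi ih => rw [Finset.sum_insert hi, Finset.prod_insert hi, AddChar.map_add_eq_mul, ih]

theorem sum_zmod (K : ℕ) [NeZero K] (f : ZMod K → ℂ) :
    ∑ x : ZMod K, f x = ∑ k ∈ Finset.range K, f (k : ZMod K) := by
  symm
  refine Finset.sum_bij' (fun k _ => (k : ZMod K)) (fun x _ => x.val) ?_ ?_ ?_ ?_ ?_
  · intro k _; exact Finset.mem_univ _
  · intro x _; exact Finset.mem_range.2 (ZMod.val_lt x)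
  · intro k hk; exact ZMod.val_cast_of_lt (Finset.mem_range.1 hk)
  · intro x _; exact ZMod.natCast_zmod_val x
  · intro k _; rfl

theorem sum_periodic (f : ℕ → ℂ) (N : ℕ) (hf : ∀ k, f (k + N) = f k) (m : ℕ) :
    ∑ k ∈ Finset.range (N * m), f k = m * ∑ k ∈ Finset.range N, f k := by
  have hf' : ∀ m k, f (N * m + k) = f k := by
    intro m
    induction m with
    | zero => intro k; simp
    | succ m ih =>
      intro k
      rw [show N * (m + 1) + k = (N * m + k) + N by ring, hf, ih]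
  induction m with
  | zero => simp
  | succ m ih =>
    rw [show N * (m + 1) = N * m + N by ring, Finset.sum_range_add, ih]
    simp only [hf']
    push_cast
    ring

theorem gauss_pos (h : GS) {q : ℕ} (hq : 0 < q) (m : ℕ) :
    ∑ k ∈ Finset.range (2 * q * m), Complex.exp (Real.pi * Complex.I * (k : ℂ) ^ 2 / (2 * q)) =
      ((m * Real.sqrt (2 * q) : ℝ) : ℂ) * Complex.exp (Real.pi * Complex.I / 4) := by
  have hq' : (q : ℂ) ≠ 0 := by exact_mod_cast hq.ne'
  rw [sum_periodic _ _ ?_ m, h q hq]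
  · push_cast
    ring
  · intro k
    have h1 : (Real.pi * Complex.I * ((k + 2 * q : ℕ) : ℂ) ^ 2 / (2 * q) : ℂ) =
        Real.pi * Complex.I * (k : ℂ) ^ 2 / (2 * q) + ((k + q : ℕ) : ℂ) * (2 * Real.pi * Complex.I) := by
      push_cast
      field_simp
      ring
    rw [h1, Complex.exp_add, Complex.exp_nat_mul_two_pi_mul_I, mul_one]

theorem gauss_one (h : GS) (a c : ℤ) (ha : a ≠ 0) (K : ℕ) [NeZero K] (hK : (K : ℤ) = 4 * a * c) :
    ∃ ρ : ℝ, 0 < ρ ∧ ∑ x : ZMod K, ZMod.stdAddChar ((c : ZMod K) * x ^ 2) =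
      ρ * Complex.exp ((a.sign : ℂ) * (Real.pi * Complex.I / 4)) := by
  have hK0 : 0 < K := Nat.pos_of_ne_zero (NeZero.ne K)
  have hac : 0 < a * c := by
    have : (0 : ℤ) < K := by exact_mod_cast hK0
    nlinarith
  have hc : c ≠ 0 := by rintro rfl; simp at hac
  have e1 : ∀ k : ℕ, ZMod.stdAddChar ((c : ZMod K) * ((k : ℕ) : ZMod K) ^ 2) =
      Complex.exp (Real.pi * Complex.I * (k : ℂ) ^ 2 / (2 * a)) := by
    intro k
    have h1 : (c : ZMod K) * ((k : ℕ) : ZMod K) ^ 2 = ((c * (k : ℤ) ^ 2 : ℤ) : ZMod K) := by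
      push_cast; ring
    rw [h1, ZMod.stdAddChar_coe]
    congr 1
    have h2 : (K : ℂ) = 4 * a * c := by exact_mod_cast hK
    have ha' : (a : ℂ) ≠ 0 := by exact_mod_cast ha
    have hc' : (c : ℂ) ≠ 0 := by exact_mod_cast hc
    rw [h2]
    push_cast
    field_simp
    ring
  rw [sum_zmod]
  simp only [e1]
  rcases lt_or_gt_of_ne ha with hneg | hpos
  · obtain ⟨q, hq⟩ : ∃ q : ℕ, (q : ℤ) = -a := ⟨(-a).toNat, Int.toNat_of_nonneg (by omega)⟩
    obtain ⟨m, hm⟩ : ∃ m : ℕ, (m : ℤ) = -(2 * c) :=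
      ⟨(-(2 * c)).toNat, Int.toNat_of_nonneg (by nlinarith)⟩
    have hq0 : 0 < q := by omega
    have hm0 : 0 < m := by
      have : c < 0 := by nlinarith
      omega
    have hKq : K = 2 * q * m := by
      have : (K : ℤ) = ((2 * q * m : ℕ) : ℤ) := by
        rw [hK]; push_cast; rw [hq, hm]; ring
      exact_mod_cast this
    have h2 : ∀ k : ℕ, Complex.exp (Real.pi * Complex.I * (k : ℂ) ^ 2 / (2 * a)) =
        (starRingEnd ℂ) (Complex.exp (Real.pi * Complex.I * (k : ℂ) ^ 2 / (2 * q))) := by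
      intro k
      rw [← Complex.exp_conj]
      congr 1
      have : (a : ℂ) = -(q : ℂ) := by
        have : a = -(q : ℤ) := by omega
        rw [this]; push_cast; ring
      rw [this]
      have c2 : (starRingEnd ℂ) (2 : ℂ) = 2 := map_ofNat _ 2
      simp [c2]
      ring
    refine ⟨m * Real.sqrt (2 * q), by positivity, ?_⟩
    simp only [h2]
    rw [← map_sum, hKq, gauss_pos h hq0 m, map_mul, Complex.conj_ofReal, ← Complex.exp_conj,
      Int.sign_eq_neg_one_of_neg hneg]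
    congr 2
    have c4 : (starRingEnd ℂ) (4 : ℂ) = 4 := map_ofNat _ 4
    simp [c4]
    ring
  · obtain ⟨q, hq⟩ : ∃ q : ℕ, (q : ℤ) = a := ⟨a.toNat, Int.toNat_of_nonneg (by omega)⟩
    obtain ⟨m, hm⟩ : ∃ m : ℕ, (m : ℤ) = 2 * c :=
      ⟨(2 * c).toNat, Int.toNat_of_nonneg (by nlinarith)⟩
    have hq0 : 0 < q := by omega
    have hm0 : 0 < m := by
      have : 0 < c := by nlinarith
      omega
    have hKq : K = 2 * q * m := by
      have : (K : ℤ) = ((2 * q * m : ℕ) : ℤ) := by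
        rw [hK]; push_cast; rw [hq, hm]; ring
      exact_mod_cast this
    refine ⟨m * Real.sqrt (2 * q), by positivity, ?_⟩
    have h3 : (a : ℂ) = (q : ℂ) := by rw [← hq]; push_cast; rfl
    rw [h3, hKq, gauss_pos h hq0 m, Int.sign_eq_one_of_pos hpos]
    simp

/-! ### Even forms -/

theorem even_form {r : ℕ} {A : Matrix (Fin r) (Fin r) ℤ} (hA : A.IsSymm) (he : ∀ i, Even (A i i))
    (l : Fin r → ℤ) : ∃ t : ℤ, l ⬝ᵥ (A *ᵥ l) = 2 * t := by
  have hadd : ∀ l l' : Fin r → ℤ, (l + l') ⬝ᵥ (A *ᵥ (l + l')) =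
      l ⬝ᵥ (A *ᵥ l) + l' ⬝ᵥ (A *ᵥ l') + 2 * (l ⬝ᵥ (A *ᵥ l')) := by
    intro l l'
    have h1 : l' ⬝ᵥ (A *ᵥ l) = l ⬝ᵥ (A *ᵥ l') := by
      rw [dotProduct_mulVec, ← mulVec_transpose, hA.eq, dotProduct_comm]
    rw [mulVec_add, add_dotProduct, dotProduct_add, dotProduct_add, h1]
    ring
  let F : (Fin r → ℤ) →+ ZMod 2 :=
    { toFun := fun l => ((l ⬝ᵥ (A *ᵥ l) : ℤ) : ZMod 2)
      map_zero' := by simp
      map_add' := by
        intro l l'
        rw [hadd]
        have h2 : (2 : ZMod 2) = 0 := rfl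
        push_cast
        rw [h2]
        ring }
  have hF : F = 0 := by
    refine AddMonoidHom.functions_ext _ _ _ fun i x => ?_
    show ((Pi.single i x ⬝ᵥ (A *ᵥ Pi.single i x) : ℤ) : ZMod 2) = 0
    rw [single_dotProduct, mulVec_single]
    obtain ⟨s, hs⟩ := he i
    have h2 : (2 : ZMod 2) = 0 := rfl
    simp only [Pi.smul_apply, Matrix.col_apply, MulOpposite.smul_eq_mul_unop,
      MulOpposite.unop_op, hs]
    push_cast
    linear_combination ((x : ZMod 2) * s * x) * h2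
  have h3 : ((l ⬝ᵥ (A *ᵥ l) : ℤ) : ZMod 2) = 0 := DFunLike.congr_fun hF l
  rw [ZMod.intCast_zmod_eq_zero_iff_dvd] at h3
  exact_mod_cast h3

/-! ### The matrix identities -/

section mats
variable {r : ℕ} {A P : Matrix (Fin r) (Fin r) ℤ} {a c : Fin r → ℤ} {M : ℤ}

theorem ps_mul (hM : ∀ i, M = 2 * a i * c i) (hE : Pᵀ * A * P = diagonal (fun i => 2 * a i)) :
    (diagonal c * (Pᵀ * A)) * P = M • (1 : Matrix (Fin r) (Fin r) ℤ) := by
  rw [Matrix.mul_assoc, hE, diagonal_mul_diagonal]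
  ext i j
  by_cases hij : i = j
  · subst hij
    rw [diagonal_apply_eq, Matrix.smul_apply, Matrix.one_apply_eq, hM i]
    simp only [smul_eq_mul]
    ring
  · rw [diagonal_apply_ne _ hij, Matrix.smul_apply, Matrix.one_apply_ne hij, smul_zero]

theorem cancel_right {X P : Matrix (Fin r) (Fin r) ℤ} (hP : P.det ≠ 0) (h : X * P = 0) : X = 0 := by
  have h1 : X * P * adjugate P = 0 := by rw [h, Matrix.zero_mul]
  rw [Matrix.mul_assoc, mul_adjugate, Matrix.mul_smul, Matrix.mul_one] at h1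
  exact (smul_eq_zero.1 h1).resolve_left hP

theorem mul_ps (hP : P.det ≠ 0) (hM : ∀ i, M = 2 * a i * c i)
    (hE : Pᵀ * A * P = diagonal (fun i => 2 * a i)) :
    P * (diagonal c * (Pᵀ * A)) = M • (1 : Matrix (Fin r) (Fin r) ℤ) := by
  have h1 : (P * (diagonal c * (Pᵀ * A)) - M • (1 : Matrix (Fin r) (Fin r) ℤ)) * P = 0 := by
    rw [Matrix.sub_mul, Matrix.mul_assoc, ps_mul hM hE, Matrix.mul_smul, Matrix.mul_one,
      Matrix.smul_mul, Matrix.one_mul, sub_self]
  exact sub_eq_zero.1 (cancel_right hP h1)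

theorem bb (hA : A.IsSymm) (hP : P.det ≠ 0) (hM : ∀ i, M = 2 * a i * c i)
    (hE : Pᵀ * A * P = diagonal (fun i => 2 * a i)) :
    (Pᵀ * A)ᵀ * (diagonal c * (Pᵀ * A)) = M • A := by
  rw [transpose_mul, transpose_transpose, hA.eq, Matrix.mul_assoc, mul_ps hP hM hE,
    Matrix.mul_smul, Matrix.mul_one]

/-- the diagonal form -/
def Qz (c : Fin r → ℤ) (x : Fin r → ℤ) : ℤ := x ⬝ᵥ (diagonal c *ᵥ x)

theorem Qz_eq (c x : Fin r → ℤ) : Qz c x = ∑ i, c i * x i ^ 2 := by
  unfold Qz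
  simp only [dotProduct, mulVec_diagonal]
  exact Finset.sum_congr rfl fun i _ => by ring

theorem key1 (hA : A.IsSymm) (hP : P.det ≠ 0) (hM : ∀ i, M = 2 * a i * c i)
    (hE : Pᵀ * A * P = diagonal (fun i => 2 * a i)) (x l : Fin r → ℤ) :
    Qz c (x + (Pᵀ * A) *ᵥ l) =
      Qz c x + 2 * (((diagonal c * (Pᵀ * A))ᵀ *ᵥ x) ⬝ᵥ l) + M * (l ⬝ᵥ (A *ᵥ l)) := by
  set B := Pᵀ * A with hB
  have h1 : x ⬝ᵥ (diagonal c *ᵥ (B *ᵥ l)) = ((diagonal c * B)ᵀ *ᵥ x) ⬝ᵥ l := by
    rw [mulVec_mulVec, dotProduct_mulVec, mulVec_transpose]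
  have h2 : (B *ᵥ l) ⬝ᵥ (diagonal c *ᵥ x) = x ⬝ᵥ (diagonal c *ᵥ (B *ᵥ l)) := by
    rw [dotProduct_mulVec, ← mulVec_transpose, diagonal_transpose, dotProduct_comm]
  have h3 : (B *ᵥ l) ⬝ᵥ (diagonal c *ᵥ (B *ᵥ l)) = M * (l ⬝ᵥ (A *ᵥ l)) := by
    rw [mulVec_mulVec, ← vecMul_transpose, ← dotProduct_mulVec, mulVec_mulVec, hB,
      bb hA hP hM hE, smul_mulVec, dotProduct_smul, smul_eq_mul]
  unfold Qz
  rw [mulVec_add, add_dotProduct, dotProduct_add, dotProduct_add, h1, h2, h1, h3]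
  ring

end mats

theorem mil (h : GS) : MIL := by
  intro r A P a hA he hdet hP ha hE
  classical
  obtain ⟨M, hM0, hMa⟩ : ∃ M : ℤ, 0 < M ∧ ∀ i, ∃ c : ℤ, M = 2 * a i * c := by
    refine ⟨∏ i, |2 * a i|, Finset.prod_pos fun i _ => ?_, fun i => ?_⟩
    · have := ha i
      positivity
    · have h1 : |2 * a i| ∣ ∏ i, |2 * a i| := Finset.dvd_prod_of_mem _ (Finset.mem_univ i)
      exact (abs_dvd _ _).1 h1
  choose c hc using hMa
  obtain ⟨K, hK⟩ : ∃ K : ℕ, (K : ℤ) = 2 * M := ⟨(2 * M).toNat, Int.toNat_of_nonneg (by omega)⟩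
  have hK0 : K ≠ 0 := by rintro rfl; simp at hK; omega
  have : NeZero K := ⟨hK0⟩
  -- the characters
  set χ : AddChar (ZMod K) ℂ := ZMod.stdAddChar with hχ
  let q : (Fin r → ZMod K) → ZMod K := fun x => ∑ i, (c i : ZMod K) * x i ^ 2
  let Bm : Matrix (Fin r) (Fin r) (ZMod K) := (Pᵀ * A).map (Int.castRingHom (ZMod K))
  let Pm : Matrix (Fin r) (Fin r) (ZMod K) :=
    ((diagonal c * (Pᵀ * A))ᵀ).map (Int.castRingHom (ZMod K))
  let w : (Fin r → ZMod K) → (Fin r → ZMod K) := fun x => (2 : ZMod K) • (Pm *ᵥ x)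
  have hlift : ∀ x : Fin r → ZMod K, ∃ v : Fin r → ℤ, x = (Int.castRingHom (ZMod K)) ∘ v := by
    intro x
    choose v hv using fun i => ZMod.intCast_surjective (x i)
    exact ⟨v, funext fun i => (hv i).symm⟩
  have hq : ∀ v : Fin r → ℤ, q ((Int.castRingHom (ZMod K)) ∘ v) = ((Qz c v : ℤ) : ZMod K) := by
    intro v
    rw [Qz_eq]
    simp only [q]
    push_cast
    rfl
  have hB : ∀ l : Fin r → ℤ, Bm *ᵥ ((Int.castRingHom (ZMod K)) ∘ l) =
      (Int.castRingHom (ZMod K)) ∘ ((Pᵀ * A) *ᵥ l) := by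
    intro l
    funext i
    exact (RingHom.map_mulVec (Int.castRingHom (ZMod K)) (Pᵀ * A) l i).symm
  have hPm : ∀ l : Fin r → ℤ, Pm *ᵥ ((Int.castRingHom (ZMod K)) ∘ l) =
      (Int.castRingHom (ZMod K)) ∘ ((diagonal c * (Pᵀ * A))ᵀ *ᵥ l) := by
    intro l
    funext i
    exact (RingHom.map_mulVec (Int.castRingHom (ZMod K)) _ l i).symm
  have hKz : ∀ t : ℤ, ((M * (2 * t) : ℤ) : ZMod K) = 0 := by
    intro t
    have h1 : M * (2 * t) = (K : ℤ) * t := by rw [hK]; ring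
    rw [h1]
    push_cast
    simp
  have key2 : ∀ x l : Fin r → ZMod K, q (x + Bm *ᵥ l) = q x + w x ⬝ᵥ l := by
    intro x l
    obtain ⟨x, rfl⟩ := hlift x
    obtain ⟨l, rfl⟩ := hlift l
    obtain ⟨t, ht⟩ := even_form hA he l
    have h1 : (Int.castRingHom (ZMod K)) ∘ x + Bm *ᵥ ((Int.castRingHom (ZMod K)) ∘ l) =
        (Int.castRingHom (ZMod K)) ∘ (x + (Pᵀ * A) *ᵥ l) := by
      rw [hB]
      funext i
      simp
    rw [h1, hq, key1 hA hP hc hE, ht, Int.cast_add, hKz, add_zero, Int.cast_add, hq]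
    congr 1
    simp only [w]
    rw [hPm, smul_dotProduct]
    simp only [dotProduct, Function.comp_apply, Int.coe_castRingHom, smul_eq_mul]
    push_cast
    rfl
  have key4 : ∀ u : Fin r → ZMod K, ∑ l : Fin r → ZMod K, χ (u ⬝ᵥ l) =
      if u = 0 then (K : ℂ) ^ r else 0 := by
    intro u
    have h1 : ∀ l : Fin r → ZMod K, χ (u ⬝ᵥ l) = ∏ i, χ (l i * u i) := by
      intro l
      simp only [dotProduct]
      rw [chi_sum]
      exact Finset.prod_congr rfl fun i _ => by rw [mul_comm]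
    simp only [h1]
    have h2 := Finset.prod_univ_sum (fun _ : Fin r => (Finset.univ : Finset (ZMod K)))
      (fun i x => χ (x * u i))
    rw [Fintype.piFinset_univ] at h2
    rw [← h2]
    simp only [AddChar.sum_mulShift _ (ZMod.isPrimitive_stdAddChar K), hχ, ZMod.card]
    split_ifs with hu
    · subst hu
      simp
    · obtain ⟨i, hi⟩ := Function.ne_iff.1 hu
      have hi' : u i ≠ 0 := hi
      exact Finset.prod_eq_zero (Finset.mem_univ i) (by simp [hi'])
  have key5 : ∀ x : Fin r → ZMod K, w x = 0 → q x = 0 := by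
    intro x hx
    obtain ⟨x, rfl⟩ := hlift x
    have h1 : ∀ j, ∃ z : ℤ, ((diagonal c * (Pᵀ * A))ᵀ *ᵥ x) j = M * z := by
      intro j
      have h2 := congrFun hx j
      simp only [w] at h2
      rw [hPm] at h2
      have h3 : (((2 * ((diagonal c * (Pᵀ * A))ᵀ *ᵥ x) j : ℤ)) : ZMod K) = 0 := by
        push_cast
        simpa using h2
      rw [ZMod.intCast_zmod_eq_zero_iff_dvd, hK] at h3
      exact (mul_dvd_mul_iff_left (by norm_num)).1 h3
    choose z hz using h1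
    have hz' : (diagonal c * (Pᵀ * A))ᵀ *ᵥ x = M • z := funext fun j => by rw [hz j]; rfl
    have h4 : M • x = M • (Pᵀ *ᵥ z) := by
      rw [← mulVec_smul, ← hz', mulVec_mulVec, ← transpose_mul, ps_mul hc hE, transpose_smul,
        transpose_one, smul_mulVec, one_mulVec]
    have h5 : x = Pᵀ *ᵥ z := by
      funext j
      have := congrFun h4 j
      simp only [Pi.smul_apply, smul_eq_mul] at this
      exact mul_left_cancel₀ hM0.ne' this
    have hu : IsUnit A.det := Int.isUnit_iff_abs_eq.2 hdet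
    have h6 : z = A *ᵥ (A⁻¹ *ᵥ z) := by rw [mulVec_mulVec, mul_nonsing_inv _ hu, one_mulVec]
    have h7 : x = 0 + (Pᵀ * A) *ᵥ (A⁻¹ *ᵥ z) := by
      rw [zero_add, ← mulVec_mulVec, ← h6]
      exact h5
    obtain ⟨t, ht⟩ := even_form hA he (A⁻¹ *ᵥ z)
    rw [hq, h7, key1 hA hP hc hE, ht, Int.cast_add, hKz]
    simp [Qz]
  -- the sum
  set S : ℂ := ∑ x : Fin r → ZMod K, χ (q x) with hS
  have hKC : ((K : ℂ) ^ r) ≠ 0 := pow_ne_zero _ (by exact_mod_cast hK0)
  have key6 : S = ((Finset.univ.filter (fun x : Fin r → ZMod K => w x = 0)).card : ℂ) := by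
    have h1 : ∀ l : Fin r → ZMod K, S = ∑ x : Fin r → ZMod K, χ (q x) * χ (w x ⬝ᵥ l) := by
      intro l
      rw [hS, ← Equiv.sum_comp (Equiv.addRight (Bm *ᵥ l)) (fun x => χ (q x))]
      refine Finset.sum_congr rfl fun x _ => ?_
      rw [Equiv.coe_addRight, key2, AddChar.map_add_eq_mul]
    have h2 : (K : ℂ) ^ r * S = ∑ l : Fin r → ZMod K, S := by
      rw [Finset.sum_const, Finset.card_univ, Fintype.card_pi]
      simp
    have h3 : (K : ℂ) ^ r * S = (K : ℂ) ^ r *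
        ((Finset.univ.filter (fun x : Fin r → ZMod K => w x = 0)).card : ℂ) := by
      rw [h2, Finset.sum_congr rfl (fun l _ => h1 l), Finset.sum_comm]
      simp only [← Finset.mul_sum, key4]
      rw [Finset.card_filter]
      push_cast
      rw [Finset.mul_sum]
      refine Finset.sum_congr rfl fun x _ => ?_
      split_ifs with hx
      · rw [key5 x hx, AddChar.map_zero_eq_one]
        ring
      · ring
    exact mul_left_cancel₀ hKC h3
  -- evaluation
  have key7 : ∃ ρ : ℝ, 0 < ρ ∧ S = ρ * Complex.exp (((∑ i, (a i).sign : ℤ) : ℂ) *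
      (Real.pi * Complex.I / 4)) := by
    choose ρ hρ hρs using fun i => gauss_one h (a i) (c i) (ha i) K (by
      rw [hK, hc i]; ring)
    refine ⟨∏ i, ρ i, Finset.prod_pos fun i _ => hρ i, ?_⟩
    have h1 : ∀ x : Fin r → ZMod K, χ (q x) = ∏ i, χ ((c i : ZMod K) * x i ^ 2) := by
      intro x
      simp only [q]
      rw [chi_sum]
    rw [hS]
    simp only [h1]
    have h2 := Finset.prod_univ_sum (fun _ : Fin r => (Finset.univ : Finset (ZMod K)))
      (fun i x => χ ((c i : ZMod K) * x ^ 2))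
    rw [Fintype.piFinset_univ] at h2
    rw [← h2, Finset.prod_congr rfl (fun i _ => hρs i), Finset.prod_mul_distrib,
      ← Complex.exp_sum]
    push_cast
    rw [Finset.sum_mul]
  obtain ⟨ρ, hρ, hSρ⟩ := key7
  have hn : 0 < (Finset.univ.filter (fun x : Fin r → ZMod K => w x = 0)).card := by
    refine Finset.card_pos.2 ⟨0, ?_⟩
    simp [w]
  rw [hSρ] at key6
  set n := (Finset.univ.filter (fun x : Fin r → ZMod K => w x = 0)).card with hnd
  set σ : ℤ := ∑ i, (a i).sign with hσ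
  have hexp : Complex.exp ((σ : ℂ) * (Real.pi * Complex.I / 4)) = ((n / ρ : ℝ) : ℂ) := by
    have hρ' : (ρ : ℂ) ≠ 0 := by exact_mod_cast hρ.ne'
    rw [Complex.ofReal_div, Complex.ofReal_natCast, eq_div_iff hρ', mul_comm]
    exact key6
  have hnorm : ‖Complex.exp ((σ : ℂ) * (Real.pi * Complex.I / 4))‖ = 1 := by
    have h1 : (σ : ℂ) * (Real.pi * Complex.I / 4) = ((σ * Real.pi / 4 : ℝ) : ℂ) * Complex.I := by
      push_cast; ring
    rw [h1, Complex.norm_exp_ofReal_mul_I]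
  rw [hexp, Complex.norm_real, Real.norm_of_nonneg (by positivity)] at hnorm
  rw [hnorm, Complex.ofReal_one, Complex.exp_eq_one_iff] at hexp
  obtain ⟨m, hm⟩ := hexp
  refine ⟨m, ?_⟩
  have hpi : (Real.pi : ℂ) ≠ 0 := by exact_mod_cast Real.pi_ne_zero
  have h1 : (σ : ℂ) = 8 * m := by
    have h2 : (Real.pi * Complex.I : ℂ) ≠ 0 := mul_ne_zero hpi Complex.I_ne_zero
    have h3 : (Real.pi * Complex.I : ℂ) * σ = (Real.pi * Complex.I) * (8 * m) := by
      linear_combination 4 * hm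
    exact mul_left_cancel₀ h2 h3
  exact_mod_cast h1

end Pool.Agent.Y143.KS
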